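import Pool.Agent.Y132.AH.GDefs

/-!
# Motivated classes in a Weil cohomology theory: definitions

The motivated classes (with coefficients in the coefficient field `W.K`) are the smallest system of
classes which contains the algebraic classes and is closed under linear combinations, products,
pull-backs, push-forwards and the inverses of the Lefschetz isomorphisms
`ξ ^ (n - i) : H^i(X) → H^(2n - i)(X)`.
-/

open CategoryTheory AlgebraicGeometry

universe u

namespace Pool.Agent.X227.MM

open Pool.Agent.H914 Pool.Agent.H914.VarClass Pool.Agent.H914.VarClass.Obj Pool.Agent.Y132.AH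

section Alg

variable {K A B Γ : Type} [Field K] [Ring A] [Algebra K A] [Ring B] [Algebra K B] [Group Γ]

/-- The multiplication by `ξ ^ (n - i)` is a bijection from `H^i` to `H^(2n - i)`, for all `i ≤ n`. -/
def IsLef (gr : ℕ → Submodule K A) (n : ℕ) (ξ : A) : Prop :=
  ∀ i ≤ n, ∀ y ∈ gr (2 * n - i), ∃! x, x ∈ gr i ∧ ξ ^ (n - i) * x = y

/-- The set `C` contains the elements of the sets `Z j` and is closed under linear combinations,
products and the inverses of the multiplications by `ξ ^ (n - i)` from `H^i` to `H^(2n - i)`, `i ≤ n`,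
for all `ξ` in `Z 1` for which these are bijective. -/
structure IsStable (gr : ℕ → Submodule K A) (n : ℕ) (Z : ℕ → Set A) (C : Set A) : Prop where
  alg : ∀ j, Z j ⊆ C
  add : ∀ a ∈ C, ∀ b ∈ C, a + b ∈ C
  smul : ∀ (r : K), ∀ a ∈ C, r • a ∈ C
  mul : ∀ a ∈ C, ∀ b ∈ C, a * b ∈ C
  lef : ∀ ξ ∈ Z 1, IsLef gr n ξ → ∀ i ≤ n, ∀ x ∈ gr i, ξ ^ (n - i) * x ∈ C → x ∈ C

/-- The homomorphism `f` maps `C` to `C'`, and the linear map `g` maps `C'` to `C`. -/
def Exchange (C : Set A) (C' : Set B) (f : A →ₐ[K] B) (g : B →ₗ[K] A) : Prop :=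
  (∀ a ∈ C, f a ∈ C') ∧ ∀ b ∈ C', g b ∈ C

/-- In all degrees `2 j` the elements of `M`, the linear combinations of Hodge classes, and the Tate
classes are the same. -/
def SameClasses {χ : Γ →* Kˣ} {gr : ℕ → Submodule K A} {n : ℕ} {tr : A →ₗ[K] K}
    {C : ℕ → Set A} (Ψ : HodgeAlg gr n tr C) (G : GalAlg Γ χ gr n tr C) (M : A → Prop) : Prop :=
  ∀ j, ∀ c ∈ gr (2 * j), (M c ↔ c ∈ Submodule.span K {c | HodgeCls Ψ j c}) ∧
    (M c ↔ TateCls χ gr G.act j c)

/-- For some place `ν` and some element `g` (a Frobenius element at this place) and some number `N`: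
`B` is generated by stable subspaces on each of which the slopes of `g` differ by at most `N`, and `g`
has a slope greater than `(n + N) / 2` on `T`. And for some number `M`: `B` is generated by stable
subspaces on each of which the numbers `p` of the Hodge types `(p, q)` differ by at most `M`, and `T`
has a Hodge type `(p, q)` with `p - q > M`. -/
def SepOn {χ : Γ →* Kˣ} {gr : ℕ → Submodule K A} {n : ℕ} {tr : A →ₗ[K] K} {C : ℕ → Set A}
    {gr' : ℕ → Submodule K B} {n' : ℕ} {tr' : B →ₗ[K] K} {C' : ℕ → Set B}
    (Ψ : HodgeAlg gr n tr C) (G : GalAlg Γ χ gr n tr C) (T : Submodule K A)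
    (Ψ' : HodgeAlg gr' n' tr' C') (G' : GalAlg Γ χ gr' n' tr' C') : Prop :=
  (∃ (ν : Pool.Agent.Y132.AF.Val K) (g : Γ) (N : ℚ), Pool.Agent.Y132.AF.val ν (χ g) = 1 ∧
    SpreadGen ν G'.act g N ∧ HighOn ν G.act g T n N) ∧
  ∃ M : ℕ, WidthOn Ψ' M ∧ ∃ p q, TypeOn Ψ T p q ∧ q + M < p

end Alg

variable {k : Type u} [Field k] {𝒱 : VarClass k} {ops : CycleOps 𝒱}

/-- A set of classes on every variety. -/
def Classes (W : WeilCohomology.{u, 0} ops) : Type (u + 1) := ∀ X : 𝒱.Obj, Set (W.H X)

/-- The classes `C X` contain the algebraic classes and are closed under linear combinations,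
products, the inverses of the Lefschetz isomorphisms (for all classes of divisors which satisfy the
hard Lefschetz theorem), pull-backs and push-forwards. -/
structure IsLefSystem {W : WeilCohomology.{u, 0} ops} (C : Classes W) : Prop where
  stable : ∀ X, IsStable (W.gr X) X.dim (algClasses W X) (C X)
  exchange : ∀ {X Y : 𝒱.Obj} (f : X ⟶ Y), Exchange (C Y) (C X) (W.map f) (W.push f)

/-- The motivated classes on `X` with coefficients in `W.K`. -/
def IsMotivated (W : WeilCohomology.{u, 0} ops) (X : 𝒱.Obj) (c : W.H X) : Prop :=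
  ∀ C : Classes W, IsLefSystem C → c ∈ C X

variable {W : WeilCohomology.{u, 0} ops} {Γ : Type} [Group Γ]

/-- `X` is separated from `Z` by the slopes of a Frobenius element and by the Hodge types: for some
number `N` the cohomology of `Z` is generated by stable pieces on which the slopes differ by at most
`N`, and there is a slope greater than `(dim X + N) / 2` on the transcendental cohomology of `X`; and
similarly for the Hodge types. (If `Z` is an abelian variety then `N = 1` is possible.) -/
def Separated (Ψ : HodgeData W) (G : GaloisData W Γ) (X Z : 𝒱.Obj) : Prop :=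
  SepOn (Ψ.on X) (G.on X) (transcendental W X) (Ψ.on Z) (G.on Z)

/-- **The motivated Mumford-Tate conjecture for the classes on `X`**: for all `j`, the following three
spaces of classes in `H^(2 j)(X)` are equal: the motivated classes, the linear combinations of Hodge
classes, and the Tate classes. -/
def MotivatedMT (Ψ : HodgeData W) (G : GaloisData W Γ) (X : 𝒱.Obj) : Prop :=
  SameClasses (Ψ.on X) (G.on X) (IsMotivated W X)

/-- **The motivated Mumford-Tate conjecture for all powers of `X`**, that is for all motives in the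
tannakian category generated by the motive of `X`. -/
def MotivatedMTAll (Ψ : HodgeData W) (G : GaloisData W Γ) (X : 𝒱.Obj) : Prop :=
  ∀ n, MotivatedMT Ψ G (powN X n)

end Pool.Agent.X227.MM
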