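import Pool.Agent.Y132.AH.MT
import Pool.Agent.X227.MM.Defs

/-!
# Motivated classes in a Weil cohomology theory

The motivated classes (with coefficients in the coefficient field `W.K`) are the smallest system of
classes which contains the algebraic classes and is closed under linear combinations, products,
pull-backs, push-forwards and the inverses of the Lefschetz isomorphisms
`ξ ^ (n - i) : H^i(X) → H^(2n - i)(X)`.
-/

open CategoryTheory AlgebraicGeometry

set_option linter.unusedSectionVars false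

universe u v

namespace Pool.Agent.X227.MM

open Pool.Agent.H914 Pool.Agent.H914.VarClass Pool.Agent.H914.VarClass.Obj
  Pool.Agent.H914.WeilCohomology Pool.Agent.H281R3.HT Pool.Agent.W552 Pool.Agent.TH125.Gal
  Pool.Agent.Y132.AF Pool.Agent.Y132.AH

variable {k : Type u} [Field k] {𝒱 : VarClass k} {ops : CycleOps 𝒱}

/-- The system of classes `𝒞` is closed under the inverses of the Lefschetz isomorphisms
`ξ ^ (n - i) : H^i(X) → H^(2n - i)(X)`, `i ≤ n = dim X`, for all classes `ξ` of divisors which satisfy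
the hard Lefschetz theorem. -/
def LefschetzClosed {W : WeilCohomology.{u, v} ops} (𝒞 : ClassSystem W) : Prop :=
  ∀ (X : 𝒱.Obj) (D : X.Cycles), X.IsCyc 1 D → HardLefschetz W X D → ∀ i ≤ X.dim, ∀ x ∈ W.gr X i,
    W.cl X D ^ (X.dim - i) * x ∈ 𝒞.C X → x ∈ 𝒞.C X

/-- The motivated classes with coefficients in `W.K`: the smallest system of classes which is closed
under the inverses of the Lefschetz isomorphisms. -/
def motivatedSys (W : WeilCohomology.{u, v} ops) : ClassSystem W where
  C X := ⨅ 𝒞 : {𝒞 : ClassSystem W // LefschetzClosed 𝒞}, 𝒞.1.C X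
  alg_le X := le_iInf fun 𝒞 => 𝒞.1.alg_le X
  mul_mem ha hb := by
    simp only [Submodule.mem_iInf] at ha hb ⊢
    exact fun 𝒞 => 𝒞.1.mul_mem (ha 𝒞) (hb 𝒞)
  map_mem {X Y} f {b} hb := by
    rw [Submodule.mem_iInf] at hb ⊢
    exact fun 𝒞 => 𝒞.1.map_mem f (hb 𝒞)
  push_mem {X Y} f {a} ha := by
    rw [Submodule.mem_iInf] at ha ⊢
    exact fun 𝒞 => 𝒞.1.push_mem f (ha 𝒞)

theorem motivated_lef (W : WeilCohomology.{u, v} ops) : LefschetzClosed (motivatedSys W) := by
  intro X D hD hL i hi x hx h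
  change _ ∈ ⨅ 𝒞 : {𝒞 : ClassSystem W // LefschetzClosed 𝒞}, 𝒞.1.C X at h
  change _ ∈ ⨅ 𝒞 : {𝒞 : ClassSystem W // LefschetzClosed 𝒞}, 𝒞.1.C X
  simp only [Submodule.mem_iInf] at h ⊢
  exact fun 𝒞 => 𝒞.2 X D hD hL i hi x hx (h 𝒞)

theorem motivated_le {W : WeilCohomology.{u, v} ops} {𝒞 : ClassSystem W}
    (h : LefschetzClosed 𝒞) (X : 𝒱.Obj) : (motivatedSys W).C X ≤ 𝒞.C X :=
  iInf_le (fun 𝒞 : {𝒞 : ClassSystem W // LefschetzClosed 𝒞} => 𝒞.1.C X) ⟨𝒞, h⟩

variable {W : WeilCohomology.{u, 0} ops} {Γ : Type} [Group Γ] (G : GaloisData W Γ) (Ψ : HodgeData W)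

theorem lef_pow (X : 𝒱.Obj) (D : X.Cycles) (m : ℕ) (x : W.H X) :
    ((LinearMap.mulLeft W.K (W.cl X D)) ^ m) x = W.cl X D ^ m * x := by
  rw [LinearMap.pow_mulLeft, LinearMap.mulLeft_apply]

theorem lef_inj {X : 𝒱.Obj} {D : X.Cycles} (hL : HardLefschetz W X D) {i : ℕ} (hi : i ≤ X.dim)
    {x : W.H X} (hx : x ∈ W.gr X i) (h : W.cl X D ^ (X.dim - i) * x = 0) : x = 0 := by
  refine (hL i hi).1 x hx ?_
  rw [lef_pow]
  exact h

theorem lef_surj {X : 𝒱.Obj} {D : X.Cycles} (hL : HardLefschetz W X D) {i : ℕ} (hi : i ≤ X.dim)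
    {y : W.H X} (hy : y ∈ W.gr X (2 * X.dim - i)) :
    ∃ x ∈ W.gr X i, W.cl X D ^ (X.dim - i) * x = y := by
  obtain ⟨x, hx, h⟩ := (hL i hi).2 y hy
  exact ⟨x, hx, by rw [← lef_pow]; exact h⟩

theorem cl_pow_gr {X : 𝒱.Obj} {D : X.Cycles} (hD : X.IsCyc 1 D) (m : ℕ) :
    W.cl X D ^ m ∈ W.gr X (2 * m) := by
  induction m with
  | zero => rw [pow_zero]; exact W.one_mem X
  | succ m ih =>
    rw [pow_succ]
    have h1 := W.mul_mem ih (W.cl_mem hD)
    rwa [show 2 * m + 2 * 1 = 2 * (m + 1) by ring] at h1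

/-- Odd elements in the span of even classes are zero. -/
theorem odd_zero {X : 𝒱.Obj} {P : ℕ → W.H X → Prop} (hP : ∀ j c, P j c → c ∈ W.gr X (2 * j))
    {m : ℕ} (hm : ¬ Even m) {c : W.H X} (hc : c ∈ W.gr X m)
    (h : c ∈ Submodule.span W.K {c | ∃ j, P j c}) : c = 0 := by
  have h2 : prj (W.isInternal X) m c = 0 := by
    clear hc
    induction h using Submodule.span_induction with
    | mem a ha =>
      obtain ⟨i, ha⟩ := ha
      refine prj_ne _ (fun h => hm ?_) (hP _ _ ha)
      rw [← h]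
      exact even_two_mul i
    | zero => rw [map_zero]
    | add x y _ _ hx hy => rw [map_add, hx, hy, add_zero]
    | smul r x _ hx => rw [map_smul, hx, smul_zero]
  rwa [prj_same _ hc] at h2

/-- A criterion for closure under the inverses of the Lefschetz isomorphisms. -/
theorem lef_of {P : ∀ X : 𝒱.Obj, ℕ → W.H X → Prop}
    (hP : ∀ X j c, P X j c → c ∈ W.gr X (2 * j))
    (hinv : ∀ (X : 𝒱.Obj) (D : X.Cycles), X.IsCyc 1 D → HardLefschetz W X D → ∀ j, 2 * j ≤ X.dim →
      ∀ x ∈ W.gr X (2 * j), P X (X.dim - j) (W.cl X D ^ (X.dim - 2 * j) * x) → P X j x)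
    (𝒞 : ClassSystem W) (h𝒞 : ∀ X, 𝒞.C X = Submodule.span W.K {c | ∃ j, P X j c}) :
    LefschetzClosed 𝒞 := by
  intro X D hD hL i hi x hx h
  rw [h𝒞] at h ⊢
  have hgr : W.cl X D ^ (X.dim - i) * x ∈ W.gr X (2 * (X.dim - i) + i) :=
    W.mul_mem (cl_pow_gr hD _) hx
  have hdeg : 2 * (X.dim - i) + i = 2 * X.dim - i := by omega
  rw [hdeg] at hgr
  by_cases hev : Even i
  · obtain ⟨j, hj⟩ := hev
    obtain rfl : i = 2 * j := by omega
    have hgr' : W.cl X D ^ (X.dim - 2 * j) * x ∈ W.gr X (2 * (X.dim - j)) := by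
      rwa [show 2 * (X.dim - j) = 2 * X.dim - 2 * j by omega]
    have h1 := span_graded (hP X) hgr' h
    have key : ∀ y ∈ Submodule.span W.K {c | P X (X.dim - j) c}, ∀ x ∈ W.gr X (2 * j),
        W.cl X D ^ (X.dim - 2 * j) * x = y → x ∈ Submodule.span W.K {c | P X j c} := by
      intro y hy
      induction hy using Submodule.span_induction with
      | mem y hy =>
        intro x hx hxy
        refine Submodule.subset_span (hinv X D hD hL j (by omega) x hx ?_)
        rw [hxy]
        exact hy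
      | zero =>
        intro x hx hxy
        rw [lef_inj hL hi hx hxy]
        exact Submodule.zero_mem _
      | add y y' hy hy' ih ih' =>
        intro x hx hxy
        have hle : Submodule.span W.K {c | P X (X.dim - j) c} ≤ W.gr X (2 * X.dim - 2 * j) := by
          rw [Submodule.span_le]
          intro c hc
          have h2 := hP X _ _ hc
          rwa [show 2 * (X.dim - j) = 2 * X.dim - 2 * j by omega] at h2
        obtain ⟨a, ha, hay⟩ := lef_surj hL hi (hle hy)
        obtain ⟨a', ha', hay'⟩ := lef_surj hL hi (hle hy')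
        have e : x = a + a' := by
          rw [← sub_eq_zero]
          refine lef_inj hL hi (Submodule.sub_mem _ hx (Submodule.add_mem _ ha ha')) ?_
          rw [mul_sub, mul_add, hay, hay', hxy, sub_self]
        rw [e]
        exact Submodule.add_mem _ (ih a ha hay) (ih' a' ha' hay')
      | smul r y hy ih =>
        intro x hx hxy
        have hle : Submodule.span W.K {c | P X (X.dim - j) c} ≤ W.gr X (2 * X.dim - 2 * j) := by
          rw [Submodule.span_le]
          intro c hc
          have h2 := hP X _ _ hc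
          rwa [show 2 * (X.dim - j) = 2 * X.dim - 2 * j by omega] at h2
        obtain ⟨a, ha, hay⟩ := lef_surj hL hi (hle hy)
        have e : x = r • a := by
          rw [← sub_eq_zero]
          refine lef_inj hL hi (Submodule.sub_mem _ hx (Submodule.smul_mem _ _ ha)) ?_
          rw [mul_sub, mul_smul_comm, hay, hxy, sub_self]
        rw [e]
        exact Submodule.smul_mem _ _ (ih a ha hay)
    have h2 : {c | P X j c} ⊆ {c | ∃ j, P X j c} := fun c hc => ⟨j, hc⟩
    exact Submodule.span_mono h2 (key _ h1 x hx rfl)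
  · have h1 := odd_zero (hP X) (m := 2 * X.dim - i) (by
      rw [Nat.even_sub (by omega)]
      simp [hev]) hgr h
    rw [lef_inj hL hi hx h1]
    exact Submodule.zero_mem _

/-- The Tate classes are closed under the inverses of the Lefschetz isomorphisms. -/
theorem tate_lef : LefschetzClosed (tateSys G) := by
  refine lef_of (P := IsTate G) (fun X j c hc => hc.1) ?_ _ fun X => rfl
  rintro X D hD hL j hj x hx ⟨hgr, Δ, hΔ, hact⟩
  obtain ⟨Δ', hΔ', hfix⟩ := (G.galois X).cl_fix 1 (W.cl X D) ⟨D, hD, rfl⟩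
  refine ⟨hx, Δ ⊓ Δ', inferInstance, fun g hg => ?_⟩
  have h1 := hact g hg.1
  have hcl := hfix g hg.2
  rw [pow_one] at hcl
  rw [map_mul, map_pow, hcl, smul_pow, smul_mul_assoc,
    show X.dim - j = (X.dim - 2 * j) + j by omega, pow_add, mul_smul] at h1
  have hχ : ((G.χ g : W.K) ^ (X.dim - 2 * j)) ≠ 0 := pow_ne_zero _ (Units.ne_zero _)
  have h2 := smul_right_injective _ hχ h1
  rw [← sub_eq_zero]
  refine lef_inj hL hj (Submodule.sub_mem _ ((G.galois X).gr_mem g _ x hx)
    (Submodule.smul_mem _ _ hx)) ?_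
  rw [mul_sub, mul_smul_comm, h2, sub_self]

/-- The Hodge classes are closed under the inverses of the Lefschetz isomorphisms. -/
theorem hodge_lef : LefschetzClosed (hodgeSys Ψ) := by
  refine lef_of (P := IsHodge Ψ) (fun X j c hc => hodge_gr Ψ hc) ?_ _ fun X => rfl
  rintro X D hD hL j hj x hx ⟨hty, hrat⟩
  set m := X.dim - 2 * j with hm
  have hclH : ∀ m : ℕ, W.cl X D ^ m ∈ (Ψ.on X).hodge (m, m) := by
    intro m
    have h0 : (1 : W.H X) ∈ (Ψ.on X).hodge (0, 0) := by
      rw [← W.cl_fund X]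
      exact (isHodge_cyc Ψ (X := X) (j := 0) X.V.fundCycle_mem).1
    induction m with
    | zero => rw [pow_zero]; exact h0
    | succ m ih =>
      rw [pow_succ]
      exact (Ψ.isHodgeDec X).mul_mem ih ((Ψ.isHodgeDec X).cl_mem 1 _ ⟨D, hD, rfl⟩)
  have hpr : ∀ (i : ℕ × ℕ) (y : W.H X), prj (Ψ.isHodgeDec X).isInternal (i.1 + m, i.2 + m)
      (W.cl X D ^ m * y) = W.cl X D ^ m * prj (Ψ.isHodgeDec X).isInternal i y := by
    intro i y
    refine int_ind (p := fun y => prj (Ψ.isHodgeDec X).isInternal (i.1 + m, i.2 + m)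
      (W.cl X D ^ m * y) = W.cl X D ^ m * prj (Ψ.isHodgeDec X).isInternal i y)
      (Ψ.isHodgeDec X).isInternal y (fun l y hy => ?_) (by simp) fun y z hy hz => ?_
    · have h1 : W.cl X D ^ m * y ∈ (Ψ.on X).hodge (l.1 + m, l.2 + m) := by
        have h2 := (Ψ.isHodgeDec X).mul_mem (hclH m) (b := y) (p' := l.1) (q' := l.2) hy
        rwa [add_comm m, add_comm m] at h2
      by_cases hl : l = i
      · subst hl
        rw [prj_same _ h1, prj_same _ hy]
      · rw [prj_ne _ hl hy, mul_zero, prj_ne _ _ h1]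
        intro h2
        rw [Prod.mk.injEq] at h2
        exact hl (Prod.ext (by omega) (by omega))
    · rw [mul_add, map_add, hy, hz, map_add, mul_add]
  refine ⟨mem_of_prj (Ψ.isHodgeDec X).isInternal fun i hi => ?_, fun σ => ?_⟩
  · by_contra hne
    have hs := type_sum Ψ hx hne
    apply hne
    refine lef_inj hL hj (x := prj (Ψ.isHodgeDec X).isInternal i x) ?_ ?_
    · have h1 := (Ψ.isHodgeDec X).le i.1 i.2 (prj_mem (Ψ.isHodgeDec X).isInternal i x)
      rwa [hs] at h1
    · rw [← hm, ← hpr]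
      refine prj_ne _ ?_ hty
      intro h2
      rw [Prod.mk.injEq] at h2
      exact hi (Prod.ext (by change i.1 = j; omega) (by change i.2 = j; omega))
  · have hcl : (Ψ.on X).coeff σ (W.cl X D) = W.cl X D :=
      (Ψ.isCoeffAct X).cl_act σ 1 _ ⟨D, hD, rfl⟩
    have h1 := hrat σ
    rw [map_mul, map_pow, hcl] at h1
    rw [← sub_eq_zero]
    refine lef_inj hL hj (Submodule.sub_mem _ ((Ψ.isCoeffAct X).gr_mem σ _ x hx) hx) ?_
    rw [mul_sub, ← hm, h1, sub_self]

theorem hardLef_iff (X : 𝒱.Obj) (D : X.Cycles) (hD : X.IsCyc 1 D) :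
    HardLefschetz W X D ↔ IsLef (W.gr X) X.dim (W.cl X D) := by
  constructor
  · intro h i hi y hy
    obtain ⟨x, hx, hxy⟩ := lef_surj h hi hy
    refine ⟨x, ⟨hx, hxy⟩, fun x' hx' => ?_⟩
    rw [← sub_eq_zero]
    refine lef_inj h hi (Submodule.sub_mem _ hx'.1 hx) ?_
    rw [mul_sub, hx'.2, hxy, sub_self]
  · intro h i hi
    refine ⟨fun a ha h0 => ?_, fun b hb => ?_⟩
    · rw [lef_pow] at h0
      obtain ⟨x, -, hx⟩ := h i hi 0 (Submodule.zero_mem _)
      rw [hx a ⟨ha, h0⟩, hx 0 ⟨Submodule.zero_mem _, mul_zero _⟩]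
    · obtain ⟨x, hx, -⟩ := h i hi b hb
      exact ⟨x, hx.1, by rw [lef_pow]; exact hx.2⟩

/-- The two descriptions of the motivated classes agree. -/
theorem motivated_eq (X : 𝒱.Obj) (c : W.H X) : c ∈ (motivatedSys W).C X ↔ IsMotivated W X c := by
  constructor
  · intro h C hC
    let 𝒞 : ClassSystem W :=
      { C := fun X =>
          { carrier := C X
            add_mem' := fun ha hb => (hC.stable X).add _ ha _ hb
            zero_mem' := by
              have h1 := (hC.stable X).alg 0 ⟨X.V.fundCycle, X.V.fundCycle_mem, rfl⟩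
              have h2 := (hC.stable X).smul 0 _ h1
              rwa [zero_smul] at h2
            smul_mem' := fun r a ha => (hC.stable X).smul r a ha }
        alg_le := fun X => Submodule.span_le.2 (Set.iUnion_subset fun j c hc =>
          (hC.stable X).alg j hc)
        mul_mem := fun {X} {_ _} ha hb => (hC.stable X).mul _ ha _ hb
        map_mem := fun {_ _} f {b} hb => (hC.exchange f).1 b hb
        push_mem := fun {_ _} f {a} ha => (hC.exchange f).2 a ha }
    have h1 : c ∈ 𝒞.C X := by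
      refine motivated_le (𝒞 := 𝒞) (fun X D hD hL i hi x hx h => ?_) X h
      exact (hC.stable X).lef _ ⟨D, hD, rfl⟩ ((hardLef_iff X D hD).1 hL) i hi x hx h
    exact h1
  · intro h
    refine h (fun X => (motivatedSys W).C X) ⟨fun X => ?_, fun f => ?_⟩
    · refine ⟨fun j c hc => (motivatedSys W).alg_le X (alg_mem hc), fun a ha b hb =>
        Submodule.add_mem _ ha hb, fun r a ha => Submodule.smul_mem _ r ha,
        fun a ha b hb => (motivatedSys W).mul_mem ha hb, ?_⟩
      rintro ξ ⟨D, hD, rfl⟩ hL i hi x hx h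
      exact motivated_lef W X D hD ((hardLef_iff X D hD).2 hL) i hi x hx h
    · exact ⟨fun a ha => (motivatedSys W).map_mem f ha, fun a ha => (motivatedSys W).push_mem f ha⟩

end Pool.Agent.X227.MM
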