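import Pool.Agent.Y132.AH.GDefs

/-!
# Powers of a variety: absolute Hodge classes
-/

open CategoryTheory AlgebraicGeometry

universe u

namespace Pool.Agent.X227.MM

open Pool.Agent.H914 Pool.Agent.H914.VarClass Pool.Agent.H914.VarClass.Obj Pool.Agent.Y132.AH

variable {k : Type u} [Field k] {𝒱 : VarClass k} {ops : CycleOps 𝒱}
  {W : WeilCohomology.{u, 0} ops}

/-- All Hodge classes on all powers of `X` are absolute Hodge classes. -/
def AbsoluteAll (Ψ : HodgeData W) (E : Embeddings W) (X : 𝒱.Obj) : Prop :=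
  ∀ n, AllAbsolute Ψ E (powN X n)

end Pool.Agent.X227.MM
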