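import Pool.Agent.Y132.AH.GDefs

/-!
# The Tate conjecture for products: definitions
-/

open CategoryTheory AlgebraicGeometry

universe u

namespace Pool.Agent.X227.MM

open Pool.Agent.H914 Pool.Agent.H914.VarClass Pool.Agent.H914.VarClass.Obj Pool.Agent.Y132.AH

section Alg

variable {K A B Γ : Type} [Field K] [Ring A] [Algebra K A] [Ring B] [Algebra K B] [Group Γ]

/-- For some place `ν` and some element `g` (a Frobenius element at this place) and some number `N`:
`B` is generated by stable subspaces on each of which the slopes of `g` differ by at most `N`, and `g`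
has a slope greater than `(n + N) / 2` on `T`. -/
def SlopesApart {χ : Γ →* Kˣ} {gr : ℕ → Submodule K A} {n : ℕ} {tr : A →ₗ[K] K} {C : ℕ → Set A}
    {gr' : ℕ → Submodule K B} {n' : ℕ} {tr' : B →ₗ[K] K} {C' : ℕ → Set B}
    (G : GalAlg Γ χ gr n tr C) (T : Submodule K A) (G' : GalAlg Γ χ gr' n' tr' C') : Prop :=
  ∃ (ν : Pool.Agent.Y132.AF.Val K) (g : Γ) (N : ℚ), Pool.Agent.Y132.AF.val ν (χ g) = 1 ∧
    SpreadGen ν G'.act g N ∧ HighOn ν G.act g T n N

/-- Every Tate class of degree `2 j` is a linear combination of elements of `C j`, for all `j`. -/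
def TateOn {χ : Γ →* Kˣ} {gr : ℕ → Submodule K A} {n : ℕ} {tr : A →ₗ[K] K} {C : ℕ → Set A}
    (G : GalAlg Γ χ gr n tr C) : Prop :=
  ∀ j c, TateCls χ gr G.act j c → c ∈ Submodule.span K (C j)

end Alg

variable {k : Type u} [Field k] {𝒱 : VarClass k} {ops : CycleOps 𝒱}
  {W : WeilCohomology.{u, 0} ops} {Γ : Type} [Group Γ]

/-- `X` is separated from `Z` by the slopes of a Frobenius element: for some number `N` the
cohomology of `Z` is generated by stable pieces on which the slopes differ by at most `N`, and there is
a slope greater than `(dim X + N) / 2` on the transcendental cohomology of `X`. (If `Z` is an abelian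
variety or a product of curves then `N = 1` is possible.) -/
def Apart (G : GaloisData W Γ) (X Z : 𝒱.Obj) : Prop :=
  SlopesApart (G.on X) (transcendental W X) (G.on Z)

/-- **The Tate conjecture for `X`**, for cycles of all codimensions: every class in `H^(2 j)(X)` on
which a subgroup of finite index acts by `χ ^ j` is a linear combination of classes of algebraic cycles
of codimension `j`. -/
def Tate (G : GaloisData W Γ) (X : 𝒱.Obj) : Prop := TateOn (G.on X)

/-- The Tate conjecture for all powers of `X`. -/
def TateAll (G : GaloisData W Γ) (X : 𝒱.Obj) : Prop := ∀ n, Tate G (powN X n)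

end Pool.Agent.X227.MM
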