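import Pool.Agent.Y132.AH.MT
import Pool.Agent.X227.MM.TDefs

/-!
# The Tate conjecture for products
-/

open CategoryTheory AlgebraicGeometry

set_option linter.unusedSectionVars false

universe u v

namespace Pool.Agent.X227.MM

open Pool.Agent.H914 Pool.Agent.H914.VarClass Pool.Agent.H914.VarClass.Obj
  Pool.Agent.H914.WeilCohomology Pool.Agent.H281R3.HT Pool.Agent.W552 Pool.Agent.TH125.Gal
  Pool.Agent.Y132.AF Pool.Agent.Y132.AH

variable {k : Type u} [Field k] {𝒱 : VarClass k} {ops : CycleOps 𝒱}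
  {W : WeilCohomology.{u, 0} ops} {Γ : Type} [Group Γ] (G : GaloisData W Γ)

/-- `c` is the class of a cycle of codimension `j`. -/
def IsAlg (X : 𝒱.Obj) (j : ℕ) (c : W.H X) : Prop := c ∈ algClasses W X j

theorem isAlg_gr {X : 𝒱.Obj} {j : ℕ} {c : W.H X} (h : IsAlg X j c) : c ∈ W.gr X (2 * j) := by
  obtain ⟨z, hz, rfl⟩ := h
  exact W.cl_mem hz

/-- The algebraic classes. -/
def algSys (W : WeilCohomology.{u, 0} ops) : ClassSystem W :=
  mkSystem (fun X j c => IsAlg X j c) (fun _ _ z hz => ⟨z, hz, rfl⟩)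
    (fun _ _ _ _ _ ⟨z, hz, ha⟩ ⟨w, hw, hb⟩ => ⟨ops.mul z w, ops.mul_mem hz hw, by
      rw [W.cl_mul, ha, hb]⟩)
    (fun f _ _ ⟨z, hz, hb⟩ => ⟨ops.pull f z, ops.pull_mem f hz, by rw [W.cl_pull, hb]⟩)
    (fun f _ _ _ hl ⟨z, hz, ha⟩ => ⟨ops.push f z, ops.push_mem f hz (by omega), by
      rw [W.cl_push, ha]⟩)
    (fun f _ _ hj ha => ext_prj (W.isInternal _) fun m => by
        rw [map_zero]
        exact gr_push f (isAlg_gr ha) (by omega))

theorem tateIn_alg (X : 𝒱.Obj) : TateIn G (algSys W) X ↔ Tate G X := by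
  constructor
  · intro h j c hc
    have h1 := h j c hc
    exact span_graded (P := fun j c => IsAlg X j c) (fun j c hc => isAlg_gr hc) hc.1 h1
  · intro h j c hc
    have h1 : algClasses W X j ⊆ {c | ∃ j, IsAlg X j c} := fun c hc => ⟨j, hc⟩
    exact Submodule.span_mono h1 (h j c hc)

theorem tate_iso {A B : 𝒱.Obj} (e : A ≅ B) (h : Tate G A) : Tate G B := by
  rw [← tateIn_alg] at h ⊢
  have h1 : ∀ b : W.H B, W.map e.inv (W.map e.hom b) = b := fun b => by
    rw [← W.map_comp, e.inv_hom_id, W.map_id]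
  intro j c hc
  rw [← h1 c]
  exact (algSys W).map_mem e.inv (h j _ (isTate_map G e.hom hc))

/-- Tate for a product implies Tate for the subproducts. -/
theorem tate_subprod [IsAlgClosed W.K] {ι : Type} {X : ι → 𝒱.Obj} (Z : 𝒱.Obj)
    (hX : AdFamily G.χ fun i => G.var (X i)) {L L' : List ι}
    (hsub : L'.Sublist L) (h : Tate G (prodList X Z L)) : Tate G (prodList X Z L') := by
  rw [← tateIn_alg] at h ⊢
  exact (classConj_tate G _ _).1 (class_sub hX (var_graded G Z) hsub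
      (var_tower G X Z L) (var_tower G X Z L') ((classConj_tate G _ _).2 h))

/-- **The Tate conjecture for products**, general case. -/
theorem tate_general [IsAlgClosed W.K] {ι : Type} [DecidableEq ι] {X : ι → 𝒱.Obj} (Z : 𝒱.Obj)
    (hX : AdFamily G.χ fun i => G.var (X i)) :
    ∃ B : Finset ι, ∑ i ∈ B, trDim W (X i) ≤ totDim W Z ∧ (∀ i ∈ B, ¬Apart G (X i) Z) ∧
      ∀ L : List ι, Tate G (prodList X Z L) ↔
        ∀ L' : List ι, L'.Sublist L → SmallList G.χ (fun i => G.var (X i)) (G.var Z) B L' →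
          Tate G (prodList X Z L') := by
  obtain ⟨B, hB, hBs, hiff⟩ := tate_iff G Z hX (algSys W)
  refine ⟨B, hB, fun i hi h => not_stableBound G h (hBs i hi), fun L =>
    ⟨fun h L' hsub _ => tate_subprod G Z hX hsub h, fun h => ?_⟩⟩
  rw [← tateIn_alg, hiff L]
  intro L' hsub hsmall
  rw [tateIn_alg]
  exact h L' hsub hsmall

/-- **The Tate conjecture for products**, separated case, all powers. -/
theorem tate_separated [IsAlgClosed W.K] {ι : Type} {X : ι → 𝒱.Obj} (Z : 𝒱.Obj)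
    (hX : AdFamily G.χ fun i => G.var (X i)) (hsep : ∀ i, Apart G (X i) Z) (L : List ι) :
    TateAll G (prodList X Z L) ↔ TateAll G Z := by
  refine forall_congr' fun n => ?_
  obtain ⟨L', ⟨e⟩⟩ := iso_pow X Z L n
  have h3 := tate_sep G (powN Z n) hX (algSys W)
    (fun i => slopeSep_pow G (show SlopeSep G (X i) Z from hsep i) n) L'
  rw [tateIn_alg, tateIn_alg] at h3
  rw [← h3]
  exact ⟨fun h => tate_iso G e h, fun h => tate_iso G e.symm h⟩

section point

theorem gr_zero_bot {Z : 𝒱.Obj} (hZ : Z.dim = 0) {m : ℕ} (hm : 0 < m) : W.gr Z m = ⊥ :=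
  W.gr_eq_bot Z m (by omega)

theorem betti_one {Z : 𝒱.Obj} (hZ : Z.dim = 0) (m : ℕ) :
    Pool.Agent.Y132.AH.betti W Z m ≤ 1 := by
  rcases Nat.eq_zero_or_pos m with rfl | hm
  · rw [Pool.Agent.Y132.AH.betti, subDim, W.gr_zero]
    exact (finrank_span_le_card ({1} : Set (W.H Z))).trans (by simp)
  · rw [Pool.Agent.Y132.AH.betti, subDim, gr_zero_bot hZ hm, finrank_bot]
    exact Nat.zero_le _

theorem smallDim_nil0 {ι : Type} [DecidableEq ι] {X : ι → 𝒱.Obj} {Z : 𝒱.Obj} (hZ : Z.dim = 0)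
    {B : Finset ι} {L : List ι} (h : SmallDim W X Z B L) : L = [] := by
  obtain ⟨-, m, -, h1, -⟩ := h
  by_contra hne
  obtain ⟨i, hi⟩ := List.exists_mem_of_ne_nil L hne
  have h2 := h1.trans (betti_one hZ m)
  have h3 : L.count i + 1 ≤ ∏ i ∈ L.toFinset, (L.count i + 1) :=
    Finset.single_le_prod' (f := fun i => L.count i + 1) (fun j _ => by omega)
      (List.mem_toFinset.2 hi)
  have h4 : 0 < L.count i := List.count_pos_iff.2 hi
  omega

theorem tate_point {Z : 𝒱.Obj} (hZ : Z.dim = 0) : Tate G Z := by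
  rintro j c ⟨hc, -⟩
  rcases Nat.eq_zero_or_pos j with rfl | hj
  · change c ∈ W.gr Z (2 * 0) at hc
    rw [mul_zero, W.gr_zero] at hc
    refine Submodule.span_mono ?_ hc
    rw [Set.singleton_subset_iff]
    exact ⟨Z.V.fundCycle, Z.V.fundCycle_mem, W.cl_fund Z⟩
  · change c ∈ W.gr Z (2 * j) at hc
    rw [gr_zero_bot hZ (by omega)] at hc
    rw [(Submodule.mem_bot _).1 hc]
    exact Submodule.zero_mem _

theorem powN_dim0 {Z : 𝒱.Obj} (hZ : Z.dim = 0) (n : ℕ) : (powN Z n).dim = 0 := by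
  induction n with
  | zero => exact hZ
  | succ n ih =>
    change (Z.prod (powN Z n)).dim = 0
    rw [dim_prod, hZ, ih]

theorem tate_products [IsAlgClosed W.K] {ι : Type} {X : ι → 𝒱.Obj} {Z : 𝒱.Obj} (hZ : Z.dim = 0)
    (hX : AdFamily G.χ fun i => G.var (X i)) (L : List ι) : TateAll G (prodList X Z L) := by
  classical
  have key : ∀ (Z : 𝒱.Obj), Z.dim = 0 → ∀ L, Tate G (prodList X Z L) := by
    intro Z hZ L
    obtain ⟨B, -, -, hiff⟩ := tate_general G Z hX
    rw [hiff]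
    intro L' _ hsmall
    rw [smallDim_nil0 hZ (small_list G hsmall)]
    exact tate_point G hZ
  intro n
  obtain ⟨L', ⟨e⟩⟩ := iso_pow X Z L n
  exact tate_iso G e.symm (key _ (powN_dim0 hZ n) L')

end point

end Pool.Agent.X227.MM
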