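import Pool.Agent.X227.MM.ADefs
import Pool.Agent.X227.MM.Tate

/-!
# Absolute Hodge classes on products and their powers
-/

open CategoryTheory AlgebraicGeometry

set_option linter.unusedSectionVars false

universe u v

namespace Pool.Agent.X227.MM

open Pool.Agent.H914 Pool.Agent.H914.VarClass Pool.Agent.H914.VarClass.Obj
  Pool.Agent.H914.WeilCohomology Pool.Agent.H281R3.HT Pool.Agent.W552 Pool.Agent.TH125.Gal
  Pool.Agent.Y132.AF Pool.Agent.Y132.AH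

variable {k : Type u} [Field k] {𝒱 : VarClass k} {ops : CycleOps 𝒱}
  {W : WeilCohomology.{u, 0} ops} (Ψ : HodgeData W) (E : Embeddings W)

theorem abs_transport {A B : 𝒱.Obj} (e : A ≅ B) (h : AllAbsolute Ψ E A) : AllAbsolute Ψ E B := by
  have h1 : ∀ b : W.H B, W.map e.inv (W.map e.hom b) = b := fun b => by
    rw [← W.map_comp, e.inv_hom_id, W.map_id]
  intro j c hc
  have h2 := isAbs_map Ψ E e.inv (h j _ (isHodge_map Ψ e.hom hc))
  rwa [h1] at h2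

theorem abs_general [IsAlgClosed W.K] {ι : Type} [DecidableEq ι] {X : ι → 𝒱.Obj} (Z : 𝒱.Obj)
    (hX : SpFamily Ψ X) :
    ∃ B : Finset ι, ∑ i ∈ B, trDim W (X i) ≤ totDim W Z ∧ (∀ i ∈ B, ¬TypeSep Ψ (X i) Z) ∧
      ∀ L : List ι, AllAbsolute Ψ E (prodList X Z L) ↔
        ∀ L' : List ι, L'.Sublist L → SmallHodge Ψ X Z B L' →
          AllAbsolute Ψ E (prodList X Z L') := by
  obtain ⟨B, hB, hBa, hiff⟩ := hodge_iff' Ψ Z hX (absSystem Ψ E)
  refine ⟨B, hB, hBa, fun L => ?_⟩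
  rw [← hodgeIn_abs, hiff L]
  exact forall_congr' fun L' => imp_congr_right fun _ => imp_congr_right fun _ =>
    hodgeIn_abs Ψ E _

theorem abs_separated [IsAlgClosed W.K] {ι : Type} {X : ι → 𝒱.Obj} (Z : 𝒱.Obj)
    (hX : SpFamily Ψ X) (hsep : ∀ i, TypeSep Ψ (X i) Z) (L : List ι) :
    AbsoluteAll Ψ E (prodList X Z L) ↔ AbsoluteAll Ψ E Z := by
  refine forall_congr' fun n => ?_
  obtain ⟨L', ⟨e⟩⟩ := iso_pow X Z L n
  have h3 := hodge_sep Ψ (powN Z n) hX (absSystem Ψ E) (fun i => typeSep_pow Ψ (hsep i) n) L'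
  rw [hodgeIn_abs, hodgeIn_abs] at h3
  rw [← h3]
  exact ⟨fun h => abs_transport Ψ E e h, fun h => abs_transport Ψ E e.symm h⟩

theorem point_system (𝒞 : ClassSystem W) {Z : 𝒱.Obj} (hZ : Z.dim = 0) (j : ℕ) {c : W.H Z}
    (hc : c ∈ W.gr Z (2 * j)) : c ∈ 𝒞.C Z := by
  rcases Nat.eq_zero_or_pos j with rfl | hj
  · rw [mul_zero, W.gr_zero, Submodule.mem_span_singleton] at hc
    obtain ⟨r, rfl⟩ := hc
    refine Submodule.smul_mem _ _ (𝒞.alg_le Z ?_)
    rw [← W.cl_fund Z]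
    exact Submodule.subset_span (Set.mem_iUnion.2 ⟨0, _, Z.V.fundCycle_mem, rfl⟩)
  · rw [gr_zero_bot hZ (by omega)] at hc
    rw [(Submodule.mem_bot _).1 hc]
    exact Submodule.zero_mem _

theorem abs_point [IsAlgClosed W.K] {Z : 𝒱.Obj} (hZ : Z.dim = 0) : AllAbsolute Ψ E Z := by
  rw [← hodgeIn_abs]
  exact fun j c hc => point_system _ hZ j (hodge_gr Ψ hc)

theorem abs_products [IsAlgClosed W.K] {ι : Type} {X : ι → 𝒱.Obj} {Z : 𝒱.Obj} (hZ : Z.dim = 0)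
    (hX : SpFamily Ψ X) (L : List ι) : AbsoluteAll Ψ E (prodList X Z L) := by
  classical
  have key : ∀ (Z : 𝒱.Obj), Z.dim = 0 → ∀ L, AllAbsolute Ψ E (prodList X Z L) := by
    intro Z hZ L
    obtain ⟨B, -, -, hiff⟩ := abs_general Ψ E Z hX
    rw [hiff]
    intro L' _ hsmall
    rw [smallDim_nil0 hZ (small_hodge Ψ hsmall)]
    exact abs_point Ψ E hZ
  intro n
  obtain ⟨L', ⟨e⟩⟩ := iso_pow X Z L n
  exact abs_transport Ψ E e.symm (key _ (powN_dim0 hZ n) L')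

/-- The Mumford-Tate conjecture for classes holds for all products of the `X i`. -/
theorem mt_point {Γ : Type} [Group Γ] (G : GaloisData W Γ) {Z : 𝒱.Obj} (hZ : Z.dim = 0) :
    MumfordTate Ψ G Z := by
  rw [mumfordTate_iff, ← tateIn_hodge, ← hodgeIn_tate]
  exact ⟨fun j c hc => point_system _ hZ j hc.1, fun j c hc => point_system _ hZ j (hodge_gr Ψ hc)⟩

theorem mt_products [IsAlgClosed W.K] {Γ : Type} [Group Γ] (G : GaloisData W Γ) {ι : Type}
    {X : ι → 𝒱.Obj} {Z : 𝒱.Obj} (hZ : Z.dim = 0)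
    (hH : SpFamily Ψ X) (hG : BigFamily G X) (L : List ι) :
    MumfordTateAll Ψ G (prodList X Z L) := by
  classical
  have key : ∀ (Z : 𝒱.Obj), Z.dim = 0 → ∀ L, MumfordTate Ψ G (prodList X Z L) := by
    intro Z hZ L
    obtain ⟨B, -, -, hiff⟩ := mt_iff' G Ψ Z hH hG
    rw [hiff]
    intro L' _ hsmall
    rw [smallDim_nil0 hZ hsmall]
    exact mt_point Ψ G hZ
  intro n
  obtain ⟨L', ⟨e⟩⟩ := iso_pow X Z L n
  exact mumfordTate_iso G Ψ e.symm (key _ (powN_dim0 hZ n) L')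

end Pool.Agent.X227.MM
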