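import Pool.Agent.X227.MM.Mot

/-!
# The motivated Mumford-Tate conjecture for products
-/

open CategoryTheory AlgebraicGeometry

set_option linter.unusedSectionVars false

universe u v

namespace Pool.Agent.X227.MM

open Pool.Agent.H914 Pool.Agent.H914.VarClass Pool.Agent.H914.VarClass.Obj
  Pool.Agent.H914.WeilCohomology Pool.Agent.H281R3.HT Pool.Agent.W552 Pool.Agent.TH125.Gal
  Pool.Agent.Y132.AF Pool.Agent.Y132.AH

variable {k : Type u} [Field k] {𝒱 : VarClass k} {ops : CycleOps 𝒱}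
  {W : WeilCohomology.{u, 0} ops} {Γ : Type} [Group Γ] (Ψ : HodgeData W) (G : GaloisData W Γ)

theorem mot_sub_hodge {X : 𝒱.Obj} {j : ℕ} {c : W.H X} (hc : c ∈ W.gr X (2 * j))
    (h : c ∈ (motivatedSys W).C X) : c ∈ Submodule.span W.K {c | IsHodge Ψ X j c} :=
  span_graded (P := IsHodge Ψ X) (fun j c hc => hodge_gr Ψ hc) hc (motivated_le (hodge_lef Ψ) X h)

theorem mot_sub_tate {X : 𝒱.Obj} {j : ℕ} {c : W.H X} (hc : c ∈ W.gr X (2 * j))
    (h : c ∈ (motivatedSys W).C X) : IsTate G X j c := by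
  have h1 := span_graded (P := IsTate G X) (fun j c hc => hc.1) hc
    (motivated_le (tate_lef G) X h)
  clear hc h
  induction h1 using Submodule.span_induction with
  | mem x hx => exact hx
  | zero => exact isTate_zero G X j
  | add x y _ _ hx hy => exact isTate_add G hx hy
  | smul r x _ hx => exact isTate_smul G r hx

theorem motivatedMT_iff (X : 𝒱.Obj) :
    MotivatedMT Ψ G X ↔ HodgeIn Ψ (motivatedSys W) X ∧ TateIn G (motivatedSys W) X := by
  have e : IsMotivated W X = fun c => c ∈ (motivatedSys W).C X :=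
    funext fun c => propext (motivated_eq X c).symm
  rw [MotivatedMT, e]
  constructor
  · intro h
    exact ⟨fun j c hc => ((h j c (hodge_gr Ψ hc)).1).2 (Submodule.subset_span hc),
      fun j c hc => ((h j c hc.1).2).2 hc⟩
  · rintro ⟨h1, h2⟩ j c hc
    refine ⟨⟨mot_sub_hodge Ψ hc, fun h => ?_⟩, ⟨mot_sub_tate G hc, fun h => h2 j c h⟩⟩
    refine Submodule.span_le.2 ?_ h
    exact fun x hx => h1 j x hx

/-- Invariance under isomorphisms. -/
theorem motivatedMT_iso {A B : 𝒱.Obj} (e : A ≅ B) (h : MotivatedMT Ψ G A) :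
    MotivatedMT Ψ G B := by
  rw [motivatedMT_iff] at h ⊢
  have h1 : ∀ b : W.H B, W.map e.inv (W.map e.hom b) = b := fun b => by
    rw [← W.map_comp, e.inv_hom_id, W.map_id]
  constructor
  · intro j c hc
    rw [← h1 c]
    exact (motivatedSys W).map_mem e.inv (h.1 j _ (isHodge_map Ψ e.hom hc))
  · intro j c hc
    rw [← h1 c]
    exact (motivatedSys W).map_mem e.inv (h.2 j _ (isTate_map G e.hom hc))

/-- The conjecture for a product implies it for the subproducts. -/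
theorem mot_sub [IsAlgClosed W.K] {ι : Type} {X : ι → 𝒱.Obj} (Z : 𝒱.Obj) (hH : SpFamily Ψ X)
    (hG : AdFamily G.χ fun i => G.var (X i)) {L L' : List ι}
    (hsub : L'.Sublist L) (h : MotivatedMT Ψ G (prodList X Z L)) :
    MotivatedMT Ψ G (prodList X Z L') := by
  rw [motivatedMT_iff] at h ⊢
  exact ⟨(classConj_iff Ψ _ _).1 (class_sub (adFamily Ψ hH) (gradedVar Ψ Z) hsub
      (isTower_prodList Ψ X Z L) (isTower_prodList Ψ X Z L') ((classConj_iff Ψ _ _).2 h.1)),
    (classConj_tate G _ _).1 (class_sub hG (var_graded G Z) hsub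
      (var_tower G X Z L) (var_tower G X Z L') ((classConj_tate G _ _).2 h.2))⟩

/-- **The motivated Mumford-Tate conjecture for products**, general case. -/
theorem mot_iff [IsAlgClosed W.K] {ι : Type} [DecidableEq ι] {X : ι → 𝒱.Obj} (Z : 𝒱.Obj)
    (hH : SpFamily Ψ X) (hG : BigFamily G X) :
    ∃ B : Finset ι, ∑ i ∈ B, trDim W (X i) ≤ 2 * totDim W Z ∧
      (∀ i ∈ B, ¬(SlopeSep G (X i) Z ∧ TypeSep Ψ (X i) Z)) ∧
      ∀ L : List ι, MotivatedMT Ψ G (prodList X Z L) ↔
        ∀ L' : List ι, L'.Sublist L → SmallDim W X Z B L' →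
          MotivatedMT Ψ G (prodList X Z L') := by
  have hG' := bigFamily_ad G (spFamily_odd Ψ hH) hG
  obtain ⟨B, hB, hBs, hiff⟩ := tate_iff G Z hG' (motivatedSys W)
  obtain ⟨B', hB', hBs', hiff'⟩ := hodge_iff' Ψ Z hH (motivatedSys W)
  refine ⟨B ∪ B', ?_, fun i hi h => ?_, fun L => ⟨fun h L' hsub _ => mot_sub Ψ G Z hH hG' hsub h,
    fun h => ?_⟩⟩
  · have h1 := Finset.sum_union_inter (s₁ := B) (s₂ := B') (f := fun i => trDim W (X i))
    omega
  · rcases Finset.mem_union.1 hi with hi | hi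
    · exact not_stableBound G h.1 (hBs i hi)
    · exact hBs' i hi h.2
  · rw [motivatedMT_iff]
    refine ⟨(hiff' L).2 fun L' hsub hsmall => ?_, (hiff L).2 fun L' hsub hsmall => ?_⟩
    · exact ((motivatedMT_iff Ψ G _).1 (h L' hsub (smallDim_mono
        Finset.subset_union_right (small_hodge Ψ hsmall)))).1
    · exact ((motivatedMT_iff Ψ G _).1 (h L' hsub (smallDim_mono
        Finset.subset_union_left (small_list G hsmall)))).2

/-- **The motivated Mumford-Tate conjecture for products**, separated case. -/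
theorem mot_sep [IsAlgClosed W.K] {ι : Type} {X : ι → 𝒱.Obj} (Z : 𝒱.Obj)
    (hH : SpFamily Ψ X) (hG : BigFamily G X)
    (h1 : ∀ i, SlopeSep G (X i) Z ∧ TypeSep Ψ (X i) Z) (L : List ι) :
    MotivatedMT Ψ G (prodList X Z L) ↔ MotivatedMT Ψ G Z := by
  have hG' := bigFamily_ad G (spFamily_odd Ψ hH) hG
  rw [motivatedMT_iff, motivatedMT_iff, tate_sep G Z hG' (motivatedSys W) (fun i => (h1 i).1) L,
    hodge_sep Ψ Z hH (motivatedSys W) (fun i => (h1 i).2) L]

/-- **All powers**, separated case. -/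
theorem mot_all [IsAlgClosed W.K] {ι : Type} {X : ι → 𝒱.Obj} (Z : 𝒱.Obj)
    (hH : SpFamily Ψ X) (hG : BigFamily G X)
    (h1 : ∀ i, SlopeSep G (X i) Z ∧ TypeSep Ψ (X i) Z) (L : List ι) :
    MotivatedMTAll Ψ G (prodList X Z L) ↔ MotivatedMTAll Ψ G Z := by
  refine forall_congr' fun n => ?_
  obtain ⟨L', ⟨e⟩⟩ := iso_pow X Z L n
  have h3 := mot_sep Ψ G (powN Z n) hH hG
    (fun i => ⟨slopeSep_pow G (h1 i).1 n, typeSep_pow Ψ (h1 i).2 n⟩) L'
  rw [← h3]
  exact ⟨fun h => motivatedMT_iso Ψ G e h, fun h => motivatedMT_iso Ψ G e.symm h⟩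

section point

theorem gr_pos_bot {Z : 𝒱.Obj} (hZ : Z.dim = 0) {m : ℕ} (hm : 0 < m) : W.gr Z m = ⊥ :=
  W.gr_eq_bot Z m (by omega)

theorem betti_le_one {Z : 𝒱.Obj} (hZ : Z.dim = 0) (m : ℕ) : Pool.Agent.Y132.AH.betti W Z m ≤ 1 := by
  rcases Nat.eq_zero_or_pos m with rfl | hm
  · rw [Pool.Agent.Y132.AH.betti, subDim, W.gr_zero]
    exact (finrank_span_le_card ({1} : Set (W.H Z))).trans (by simp)
  · rw [Pool.Agent.Y132.AH.betti, subDim, gr_pos_bot hZ hm, finrank_bot]
    exact Nat.zero_le _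

theorem smallDim_nil {ι : Type} [DecidableEq ι] {X : ι → 𝒱.Obj} {Z : 𝒱.Obj} (hZ : Z.dim = 0)
    {B : Finset ι} {L : List ι} (h : SmallDim W X Z B L) : L = [] := by
  obtain ⟨-, m, -, h1, -⟩ := h
  by_contra hne
  obtain ⟨i, hi⟩ := List.exists_mem_of_ne_nil L hne
  have h2 := h1.trans (betti_le_one hZ m)
  have h3 : L.count i + 1 ≤ ∏ i ∈ L.toFinset, (L.count i + 1) :=
    Finset.single_le_prod' (f := fun i => L.count i + 1) (fun j _ => by omega)
      (List.mem_toFinset.2 hi)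
  have h4 : 0 < L.count i := List.count_pos_iff.2 hi
  omega

theorem mot_point {Z : 𝒱.Obj} (hZ : Z.dim = 0) : MotivatedMT Ψ G Z := by
  have key : ∀ j, ∀ c ∈ W.gr Z (2 * j), c ∈ (motivatedSys W).C Z := by
    intro j c hc
    rcases Nat.eq_zero_or_pos j with rfl | hj
    · rw [mul_zero, W.gr_zero, Submodule.mem_span_singleton] at hc
      obtain ⟨r, rfl⟩ := hc
      refine Submodule.smul_mem _ _ ((motivatedSys W).alg_le Z ?_)
      rw [← W.cl_fund Z]
      exact alg_mem ⟨_, Z.V.fundCycle_mem, rfl⟩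
    · rw [gr_pos_bot hZ (by omega)] at hc
      rw [(Submodule.mem_bot _).1 hc]
      exact Submodule.zero_mem _
  rw [motivatedMT_iff]
  exact ⟨fun j c hc => key j c (hodge_gr Ψ hc), fun j c hc => key j c hc.1⟩

theorem powN_dim {Z : 𝒱.Obj} (hZ : Z.dim = 0) (n : ℕ) : (powN Z n).dim = 0 := by
  induction n with
  | zero => exact hZ
  | succ n ih =>
    change (Z.prod (powN Z n)).dim = 0
    rw [dim_prod, hZ, ih]

/-- The conjecture holds for all products of the `X i`. -/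
theorem mot_products [IsAlgClosed W.K] {ι : Type} {X : ι → 𝒱.Obj} {Z : 𝒱.Obj} (hZ : Z.dim = 0)
    (hH : SpFamily Ψ X) (hG : BigFamily G X) (L : List ι) : MotivatedMT Ψ G (prodList X Z L) := by
  classical
  obtain ⟨B, -, -, hiff⟩ := mot_iff Ψ G Z hH hG
  rw [hiff]
  intro L' _ hsmall
  rw [smallDim_nil hZ hsmall]
  exact mot_point Ψ G hZ

theorem mot_products_all [IsAlgClosed W.K] {ι : Type} {X : ι → 𝒱.Obj} {Z : 𝒱.Obj}
    (hZ : Z.dim = 0) (hH : SpFamily Ψ X) (hG : BigFamily G X) (L : List ι) :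
    MotivatedMTAll Ψ G (prodList X Z L) := by
  intro n
  obtain ⟨L', ⟨e⟩⟩ := iso_pow X Z L n
  exact motivatedMT_iso Ψ G e.symm (mot_products Ψ G (powN_dim hZ n) hH hG L')

end point

theorem separated_iff (X Z : 𝒱.Obj) :
    Separated Ψ G X Z ↔ SlopeSep G X Z ∧ TypeSep Ψ X Z := Iff.rfl

end Pool.Agent.X227.MM
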